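import Pool.Agent.Helper25.HL.Goals1

set_option autoImplicit false

namespace Pool.Agent.Helper83.HL

open Pool.Agent.Helper25.HL Finset

theorem opn (h : S_ADJ) : S_OPN := by
  intro κ ι τ _ _ _ t r x ct cr hct hcr ht hr
  have key : ∀ a : τ, ∑ i, ‖(∑ j, ip (t j) (r i) • x j) a‖ ^ 2 ≤ ct * cr * ∑ j, ‖x j a‖ ^ 2 := by
    intro a
    set w : κ → ℂ := ∑ j, (starRingEnd ℂ) (x j a) • t j with hw
    have h1 : ∀ i, ‖(∑ j, ip (t j) (r i) • x j) a‖ = ‖ip (r i) w‖ := by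
      intro i
      have e : (∑ j, ip (t j) (r i) • x j) a = (starRingEnd ℂ) (ip (r i) w) := by
        unfold ip
        rw [map_sum, hw]
        simp only [Finset.sum_apply, Pi.smul_apply, smul_eq_mul, map_mul, Complex.conj_conj,
          map_sum, sum_mul, mul_sum]
        rw [sum_comm]
        refine sum_congr rfl fun m _ ↦ sum_congr rfl fun j _ ↦ by ring
      rw [e, RCLike.norm_conj]
    simp only [h1]
    have h2 := h κ ι r cr hcr hr w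
    have h3 := ht (fun j ↦ (starRingEnd ℂ) (x j a))
    have h4 : ∀ j, ‖(starRingEnd ℂ) (x j a)‖ = ‖x j a‖ := fun j ↦ RCLike.norm_conj _
    simp only [h4] at h3
    calc ∑ i, ‖ip (r i) w‖ ^ 2 ≤ cr * Pool.Agent.Helper25.HL.sq w := h2
      _ ≤ cr * (ct * ∑ j, ‖x j a‖ ^ 2) := mul_le_mul_of_nonneg_left h3 hcr
      _ = ct * cr * ∑ j, ‖x j a‖ ^ 2 := by ring
  unfold Pool.Agent.Helper25.HL.sq
  rw [sum_comm]
  calc ∑ a, ∑ i, ‖(∑ j, ip (t j) (r i) • x j) a‖ ^ 2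
      ≤ ∑ a, ct * cr * ∑ j, ‖x j a‖ ^ 2 := sum_le_sum fun a _ ↦ key a
    _ = ct * cr * ∑ j, ∑ a, ‖x j a‖ ^ 2 := by rw [← mul_sum, sum_comm]

end Pool.Agent.Helper83.HL
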